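import Pool.Agent.Q124.BC.Dfs

/-!
# Bounds for the two numbers
-/

set_option autoImplicit false

namespace Pool.Agent.Q124.BC

open Finset

variable {V : Type*} [Fintype V]

/-- a bnr-independent broadcast gives a lower bound -/
theorem le_bnrNumber (G : SimpleGraph V) (f : V → ℕ) (h1 : IsBroadcast G f)
    (h2 : IsBnIndependent G f) (h3 : IsIrredundant G f) : ∑ v, f v ≤ bnrNumber G := by
  unfold bnrNumber
  apply le_csSup
  · refine ⟨∑ v, ecc G v, ?_⟩
    rintro c ⟨g, hg, -, -, rfl⟩
    exact Finset.sum_le_sum fun v _ => hg v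
  · exact ⟨f, h1, h2, h3, rfl⟩

/-- an upper bound for all minimal dominating broadcasts is one for `Γ_b` -/
theorem upperBroadcastNumber_le (G : SimpleGraph V) (b : ℕ)
    (h : ∀ f : V → ℕ, IsMinimalDominating G f → ∑ v, f v ≤ b) : upperBroadcastNumber G ≤ b := by
  unfold upperBroadcastNumber
  by_cases hne : {c | ∃ f : V → ℕ, IsMinimalDominating G f ∧ ∑ v, f v = c}.Nonempty
  · apply csSup_le hne
    rintro c ⟨f, hf, rfl⟩
    exact h f hf
  · rw [Set.not_nonempty_iff_eq_empty] at hne
    rw [hne]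
    simp

theorem ecc_eq_of (G : SimpleGraph V) (D : V → V → ℕ) (hD : ∀ u v, G.dist u v = D u v) (v : V) :
    ecc G v = univ.sup (fun u => D u v) := by
  unfold ecc; simp only [hD]

omit [Fintype V] in
/-- irredundance from private vertices -/
theorem isIrredundant_of (G : SimpleGraph V) (f : V → ℕ)
    (h : ∀ v, 1 ≤ f v → ∃ u, (G.dist u v = f v ∨ (f v = 1 ∧ G.dist u v = 0)) ∧
      ∀ w, w ≠ v → ¬ (1 ≤ f w ∧ G.dist u w ≤ f w)) : IsIrredundant G f := by
  classical
  intro v hv
  obtain ⟨u, hu, hw⟩ := h v hv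
  refine ⟨u, by omega, ?_⟩
  intro w hh
  unfold Hears at hh
  by_cases hwv : w = v
  · subst hwv
    have : lower f w w = f w - 1 := by unfold lower; simp
    rw [this] at hh
    omega
  · have : lower f v w = f w := by unfold lower; simp [hwv]
    rw [this] at hh
    exact hw w hwv hh

end Pool.Agent.Q124.BC
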