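import Pool.Agent.Q124.BC.Basic

/-!
# Replacing every vertex by a clique
-/

set_option autoImplicit false

namespace Pool.Agent.Q124.BC

open Finset

variable {V : Type*}

/-- the strong product `H ⊠ K_{m+1}`: every vertex of `H` is replaced by a clique on `m + 1`
vertices, and every edge of `H` by a complete bipartite graph -/
def blow (H : SimpleGraph V) (m : ℕ) : SimpleGraph (V × Fin (m + 1)) where
  Adj a b := H.Adj a.1 b.1 ∨ (a.1 = b.1 ∧ a ≠ b)
  symm := ⟨fun a b h => by
    rcases h with h | h
    · exact Or.inl h.symm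
    · exact Or.inr ⟨h.1.symm, h.2.symm⟩⟩
  loopless := ⟨fun a h => by
    rcases h with h | h
    · exact H.loopless.irrefl _ h
    · exact h.2 rfl⟩

theorem blow_adj (H : SimpleGraph V) (m : ℕ) (a b : V × Fin (m + 1)) :
    (blow H m).Adj a b ↔ H.Adj a.1 b.1 ∨ (a.1 = b.1 ∧ a ≠ b) := Iff.rfl

open Classical in
theorem dist_blow (H : SimpleGraph V) (hH : H.Connected) (m : ℕ) (a b : V × Fin (m + 1)) :
    (blow H m).Reachable a b ∧
      (blow H m).dist a b = if a = b then 0 else max 1 (H.dist a.1 b.1) := by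
  refine dist_eq_of (blow H m) (fun a b => if a = b then 0 else max 1 (H.dist a.1 b.1))
    (by intro u; simp) ?_ ?_ a b
  · intro u v w h
    have hd : H.dist u.1 w.1 ≤ H.dist u.1 v.1 + 1 := by
      rcases h with h | h
      · have := hH.dist_triangle (u := u.1) (v := v.1) (w := w.1)
        rw [SimpleGraph.dist_eq_one_iff_adj.2 h] at this
        exact this
      · rw [h.1]; omega
    by_cases huv : u = v
    · subst huv
      simp only [if_true]
      split
      · omega
      · rw [SimpleGraph.dist_self] at hd; omega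
    · simp only [if_neg huv]
      split
      · omega
      · omega
  · intro u v huv
    by_cases hd : H.dist u.1 v.1 ≤ 1
    · refine ⟨u, ?_, ?_⟩
      · rw [blow_adj]
        by_cases h0 : u.1 = v.1
        · exact Or.inr ⟨h0, huv⟩
        · left
          have hpos := hH.pos_dist_of_ne h0
          exact SimpleGraph.dist_eq_one_iff_adj.1 (by omega)
      · simp only [if_neg huv, if_true]
        omega
    · rw [not_le] at hd
      obtain ⟨p, hp⟩ := hH.exists_walk_length_eq_dist u.1 v.1
      have hp' : ¬ p.reverse.Nil := by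
        intro hnil
        have := SimpleGraph.Walk.length_eq_zero_iff.2 hnil
        rw [SimpleGraph.Walk.length_reverse] at this
        omega
      obtain ⟨x, hx, hxd⟩ : ∃ x, H.Adj x v.1 ∧ H.dist u.1 v.1 = H.dist u.1 x + 1 := by
        have hadj := p.reverse.adj_snd hp'
        refine ⟨p.reverse.snd, hadj.symm, ?_⟩
        have h1 := SimpleGraph.dist_le p.reverse.tail
        have h2 := p.reverse.length_tail_add_one hp'
        rw [SimpleGraph.Walk.length_reverse] at h2
        have h3 := hH.dist_triangle (u := u.1) (v := p.reverse.snd) (w := v.1)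
        rw [SimpleGraph.dist_eq_one_iff_adj.2 hadj.symm] at h3
        rw [SimpleGraph.dist_comm] at h1
        omega
      refine ⟨(x, 0), Or.inl hx, ?_⟩
      have hne : u ≠ (x, 0) := by
        intro h
        have hux : u.1 = x := congrArg Prod.fst h
        rw [hux] at hxd hd
        rw [SimpleGraph.dist_self] at hxd
        omega
      simp only [if_neg huv, if_neg hne]
      omega

theorem connected_blow (H : SimpleGraph V) (hH : H.Connected) (m : ℕ) :
    (blow H m).Connected := by
  have := hH.nonempty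
  exact ⟨fun a b => (dist_blow H hH m a b).1⟩

theorem dist_blow_le (H : SimpleGraph V) (hH : H.Connected) (m : ℕ) (a b : V × Fin (m + 1)) :
    (blow H m).dist a b ≤ max 1 (H.dist a.1 b.1) := by
  classical
  rw [(dist_blow H hH m a b).2]
  split
  · omega
  · exact le_rfl

theorem le_dist_blow (H : SimpleGraph V) (hH : H.Connected) (m : ℕ) (a b : V × Fin (m + 1)) :
    H.dist a.1 b.1 ≤ (blow H m).dist a b := by
  classical
  rw [(dist_blow H hH m a b).2]
  split
  · rename_i h; subst h; simp
  · omega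

theorem dist_blow_zero (H : SimpleGraph V) (hH : H.Connected) (m : ℕ) (a b : V)
    (i : Fin (m + 1)) : (blow H m).dist (a, i) (b, i) = H.dist a b := by
  classical
  rw [(dist_blow H hH m _ _).2]
  by_cases h : a = b
  · subst h; simp
  · have := hH.pos_dist_of_ne h
    have hne : ((a, i) : V × Fin (m + 1)) ≠ (b, i) := by
      intro h'; exact h (congrArg Prod.fst h')
    rw [if_neg hne]
    simp only
    omega

variable [Fintype V]

theorem ecc_blow_le (H : SimpleGraph V) (hH : H.Connected) [Nontrivial V] (m : ℕ)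
    (a : V × Fin (m + 1)) : ecc (blow H m) a ≤ ecc H a.1 := by
  unfold ecc
  apply Finset.sup_le
  intro b _
  refine (dist_blow_le H hH m b a).trans ?_
  have h1 : H.dist b.1 a.1 ≤ univ.sup (fun u => H.dist u a.1) :=
    Finset.le_sup (f := fun u => H.dist u a.1) (mem_univ b.1)
  obtain ⟨c, hc⟩ := exists_ne a.1
  have h2 : H.dist c a.1 ≤ univ.sup (fun u => H.dist u a.1) :=
    Finset.le_sup (f := fun u => H.dist u a.1) (mem_univ c)
  have h3 := hH.pos_dist_of_ne hc
  omega

theorem le_ecc_blow (H : SimpleGraph V) (hH : H.Connected) (m : ℕ)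
    (a : V × Fin (m + 1)) : ecc H a.1 ≤ ecc (blow H m) a := by
  unfold ecc
  apply Finset.sup_le
  intro b _
  refine (le_dist_blow H hH m (b, 0) a).trans ?_
  exact Finset.le_sup (f := fun u => (blow H m).dist u a) (mem_univ _)

/-- an upper bound for irredundant dominating broadcasts on `H` carries over to the blow-up -/
theorem upper_blow (H : SimpleGraph V) (hH : H.Connected) [Nontrivial V] (b : ℕ)
    (hb : ∀ f : V → ℕ, (∀ v, f v ≤ ecc H v) → (∀ u, ∃ v, 1 ≤ f v ∧ H.dist u v ≤ f v) →
      (∀ v, 1 ≤ f v → ∃ u, (H.dist u v = f v ∨ (f v = 1 ∧ H.dist u v = 0)) ∧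
        ∀ w, w ≠ v → ¬ (1 ≤ f w ∧ H.dist u w ≤ f w)) → ∑ v, f v ≤ b) (m : ℕ) :
    upperBroadcastNumber (blow H m) ≤ b := by
  apply upperBroadcastNumber_le
  intro f hf
  have hpr := private_of_minimal _ f hf
  have huniq : ∀ (u : V) (i j : Fin (m + 1)), 1 ≤ f (u, i) → 1 ≤ f (u, j) → i = j := by
    have key : ∀ (u : V) (i j : Fin (m + 1)), 1 ≤ f (u, j) → f (u, j) ≤ f (u, i) → i = j := by
      intro u i j hj hij
      by_contra hne
      obtain ⟨x, hx, hx'⟩ := hpr (u, j) hj
      apply hx' (u, i) (by intro h; exact hne (congrArg Prod.snd h))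
      refine ⟨by omega, ?_⟩
      have h1 := dist_blow_le H hH m x (u, i)
      have h2 := le_dist_blow H hH m x (u, j)
      simp only at h1 h2
      omega
    intro u i j hi hj
    rcases le_total (f (u, j)) (f (u, i)) with h | h
    · exact key u i j hj h
    · exact (key u j i hi h).symm
  have hsum : ∀ (u : V) (i : Fin (m + 1)), 1 ≤ f (u, i) → ∑ j, f (u, j) = f (u, i) := by
    intro u i hi
    apply Finset.sum_eq_single i
    · intro j _ hj
      by_contra h
      exact hj (huniq u j i (by omega) hi)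
    · intro h; exact absurd (mem_univ _) h
  have hex : ∀ u : V, 1 ≤ ∑ j, f (u, j) → ∃ i, 1 ≤ f (u, i) := by
    intro u hu
    by_contra h
    push Not at h
    have : ∑ j, f (u, j) = 0 := Finset.sum_eq_zero fun j _ => by have := h j; omega
    omega
  have htot : ∑ a, f a = ∑ u, ∑ j, f (u, j) := Fintype.sum_prod_type _
  rw [htot]
  apply hb (fun u => ∑ j, f (u, j))
  · intro u
    by_cases h0 : 1 ≤ ∑ j, f (u, j)
    · obtain ⟨i, hi⟩ := hex u h0
      rw [hsum u i hi]
      exact (hf.1 (u, i)).trans (ecc_blow_le H hH m (u, i))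
    · omega
  · intro x
    obtain ⟨⟨v, i⟩, h1, h2⟩ := hf.2.1 (x, 0)
    refine ⟨v, ?_, ?_⟩
    · rw [hsum v i h1]; exact h1
    · rw [hsum v i h1]
      exact (le_dist_blow H hH m (x, 0) (v, i)).trans h2
  · intro v hv
    obtain ⟨i, hi⟩ := hex v hv
    obtain ⟨⟨x, k⟩, hx, hx'⟩ := hpr (v, i) hi
    refine ⟨x, ?_, ?_⟩
    · rw [hsum v i hi]
      have h1 := dist_blow_le H hH m (x, k) (v, i)
      have h2 := le_dist_blow H hH m (x, k) (v, i)
      simp only at h1 h2
      omega
    · intro w hwv hh
      obtain ⟨j, hj⟩ := hex w hh.1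
      rw [hsum w j hj] at hh
      apply hx' (w, j) (by intro h; exact hwv (congrArg Prod.fst h))
      refine ⟨hj, ?_⟩
      have h1 := dist_blow_le H hH m (x, k) (w, j)
      simp only at h1
      omega

open Classical in
/-- a bnr-independent broadcast on `H` gives one on the blow-up -/
theorem lower_blow (H : SimpleGraph V) (hH : H.Connected) (f : V → ℕ)
    (h1 : ∀ v, f v ≤ ecc H v)
    (h2 : ∀ u v, u ≠ v → ∀ x, (1 ≤ f u ∧ H.dist x u ≤ f u) → (1 ≤ f v ∧ H.dist x v ≤ f v) →
      H.dist x u = f u ∧ H.dist x v = f v)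
    (h3 : ∀ v, 1 ≤ f v → ∃ u, (H.dist u v = f v ∨ (f v = 1 ∧ H.dist u v = 0)) ∧
        ∀ w, w ≠ v → ¬ (1 ≤ f w ∧ H.dist u w ≤ f w)) (m : ℕ) :
    ∑ v, f v ≤ bnrNumber (blow H m) := by
  have hs : ∑ a : V × Fin (m + 1), (if a.2 = 0 then f a.1 else 0) = ∑ v, f v := by
    rw [Fintype.sum_prod_type]
    apply Finset.sum_congr rfl
    intro v _
    simp
  rw [← hs]
  apply le_bnrNumber
  · rintro ⟨v, i⟩
    simp only
    split
    · exact (h1 v).trans (le_ecc_blow H hH m (v, i))
    · omega
  · rintro ⟨u, i⟩ ⟨v, j⟩ huv ⟨x, k⟩ ⟨p1, p2⟩ ⟨q1, q2⟩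
    simp only at p1 p2 q1 q2
    by_cases hi : i = 0
    · by_cases hj : j = 0
      · subst hi hj
        have huv' : u ≠ v := by rintro rfl; exact huv rfl
        simp only [if_true] at p1 p2 q1 q2 ⊢
        have a1 := le_dist_blow H hH m (x, k) (u, 0)
        have a2 := le_dist_blow H hH m (x, k) (v, 0)
        have b1 := dist_blow_le H hH m (x, k) (u, 0)
        have b2 := dist_blow_le H hH m (x, k) (v, 0)
        simp only at a1 a2 b1 b2
        have := h2 u v huv' x ⟨p1, by omega⟩ ⟨q1, by omega⟩
        omega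
      · rw [if_neg hj] at q1; omega
    · rw [if_neg hi] at p1; omega
  · apply isIrredundant_of
    rintro ⟨v, i⟩ hv
    simp only at hv
    by_cases hi : i = 0
    · subst hi
      rw [if_pos rfl] at hv
      obtain ⟨x, hx, hx'⟩ := h3 v hv
      refine ⟨(x, 0), ?_, ?_⟩
      · rw [dist_blow_zero H hH]
        simpa using hx
      · rintro ⟨w, j⟩ hwj ⟨hh1, hh2⟩
        simp only at hh1 hh2
        by_cases hj : j = 0
        · subst hj
          rw [dist_blow_zero H hH] at hh2
          simp only [if_true] at hh1 hh2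
          exact hx' w (by rintro rfl; exact hwj rfl) ⟨hh1, hh2⟩
        · rw [if_neg hj] at hh1; omega
    · rw [if_neg hi] at hv; omega

end Pool.Agent.Q124.BC
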