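import Mathlib

/-!
# Broadcasts on graphs: upper broadcast domination and bnr-independence
-/

set_option autoImplicit false

namespace Pool.Agent.Q124.BC

open Finset

variable {V : Type*} [Fintype V]

/-- the eccentricity of `v` -/
noncomputable def ecc (G : SimpleGraph V) (v : V) : ℕ := univ.sup (fun u => G.dist u v)

/-- `f` is a broadcast on the connected graph `G`: `f(v) ≤ e(v)` for all `v` -/
def IsBroadcast (G : SimpleGraph V) (f : V → ℕ) : Prop := ∀ v, f v ≤ ecc G v

omit [Fintype V] in
/-- the vertex `u` hears `f` from the broadcasting vertex `v` -/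
def Hears (G : SimpleGraph V) (f : V → ℕ) (u v : V) : Prop := 1 ≤ f v ∧ G.dist u v ≤ f v

omit [Fintype V] in
/-- every vertex hears `f` -/
def Dominates (G : SimpleGraph V) (f : V → ℕ) : Prop := ∀ u, ∃ v, Hears G f u v

/-- minimal dominating broadcasts -/
def IsMinimalDominating (G : SimpleGraph V) (f : V → ℕ) : Prop :=
  IsBroadcast G f ∧ Dominates G f ∧
    ∀ g : V → ℕ, IsBroadcast G g → Dominates G g → g ≤ f → g = f

/-- the upper broadcast domination number `Γ_b(G)` -/
noncomputable def upperBroadcastNumber (G : SimpleGraph V) : ℕ :=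
  sSup {c | ∃ f : V → ℕ, IsMinimalDominating G f ∧ ∑ v, f v = c}

omit [Fintype V] in
/-- bn-independence: a vertex which hears `f` from two broadcasting vertices is on the boundary of
both -/
def IsBnIndependent (G : SimpleGraph V) (f : V → ℕ) : Prop :=
  ∀ u v, u ≠ v → ∀ x, Hears G f x u → Hears G f x v → G.dist x u = f u ∧ G.dist x v = f v

open Classical in
/-- the broadcast with the value at `v` lowered by one -/
noncomputable def lower (f : V → ℕ) (v : V) : V → ℕ := Function.update f v (f v - 1)

/-- irredundance: every broadcasting vertex has a private boundary -/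
def IsIrredundant (G : SimpleGraph V) (f : V → ℕ) : Prop :=
  ∀ v, 1 ≤ f v → ∃ u, G.dist u v ≤ f v ∧ ∀ w, ¬ Hears G (lower f v) u w

/-- the bnr-independence number `α_bnr(G)` -/
noncomputable def bnrNumber (G : SimpleGraph V) : ℕ :=
  sSup {c | ∃ f : V → ℕ, IsBroadcast G f ∧ IsBnIndependent G f ∧ IsIrredundant G f ∧
    ∑ v, f v = c}

end Pool.Agent.Q124.BC
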