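import Pool.Agent.Q124.BC.Defs

/-!
# A verified search bounding the weight of minimal dominating broadcasts
-/

set_option autoImplicit false

namespace Pool.Agent.Q124.BC

open Finset

/-- distances from a potential -/
theorem dist_eq_of {V : Type*} (G : SimpleGraph V) (h : V → V → ℕ) (h0 : ∀ u, h u u = 0)
    (h1 : ∀ u v w, G.Adj v w → h u w ≤ h u v + 1)
    (h2 : ∀ u v, u ≠ v → ∃ w, G.Adj w v ∧ h u v = h u w + 1) (u v : V) :
    G.Reachable u v ∧ G.dist u v = h u v := by
  have hd : ∀ n u v, h u v = n → ∃ p : G.Walk u v, p.length = n := by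
    intro n
    induction n with
    | zero =>
      intro u v e
      by_cases huv : u = v
      · subst huv; exact ⟨SimpleGraph.Walk.nil, rfl⟩
      · obtain ⟨w, -, hw⟩ := h2 u v huv; omega
    | succ n ih =>
      intro u v e
      have huv : u ≠ v := by rintro rfl; rw [h0] at e; omega
      obtain ⟨w, hw, hw'⟩ := h2 u v huv
      obtain ⟨p, hp⟩ := ih u w (by omega)
      exact ⟨p.concat hw, by simp [hp]⟩
  have hl : ∀ u v (p : G.Walk u v), h u v ≤ p.length := by
    intro u v p
    have key : ∀ (a b : V) (p : G.Walk a b) (u : V), h u b ≤ h u a + p.length := by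
      intro a b p
      induction p with
      | nil => intro u; simp
      | cons e p ih =>
        intro u
        have := ih u
        have := h1 u _ _ e
        simp only [SimpleGraph.Walk.length_cons]
        omega
    have := key u v p u
    rw [h0] at this
    omega
  obtain ⟨p, hp⟩ := hd _ u v rfl
  refine ⟨⟨p⟩, le_antisymm (hp ▸ G.dist_le p) ?_⟩
  obtain ⟨q, hq⟩ := SimpleGraph.Reachable.exists_walk_length_eq_dist ⟨p⟩
  rw [← hq]; exact hl u v q

variable {V : Type*}

/-- minimal dominating broadcasts: private vertices -/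
theorem private_of_minimal [Fintype V] (G : SimpleGraph V) (f : V → ℕ)
    (hf : IsMinimalDominating G f) :
    ∀ v, 1 ≤ f v → ∃ u, (G.dist u v = f v ∨ (f v = 1 ∧ G.dist u v = 0)) ∧
      ∀ w, w ≠ v → ¬ Hears G f u w := by
  classical
  obtain ⟨h1, h2, h3⟩ := hf
  intro v hv
  have hlow : ∀ w, lower f v w = if w = v then f v - 1 else f w := by
    intro w; unfold lower; by_cases h : w = v
    · subst h; simp
    · simp [h]
  have hb : IsBroadcast G (lower f v) := by
    intro w
    rw [hlow]
    split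
    · rename_i h; subst h; exact (Nat.sub_le _ _).trans (h1 w)
    · exact h1 w
  have hle : lower f v ≤ f := by
    intro w
    rw [hlow]
    split
    · rename_i h; subst h; exact Nat.sub_le _ _
    · exact le_rfl
  have hne : lower f v ≠ f := by
    intro h
    have := congrFun h v
    rw [hlow] at this
    simp at this
    omega
  have hnd : ¬ Dominates G (lower f v) := fun hd => hne (h3 _ hb hd hle)
  unfold Dominates at hnd
  push Not at hnd
  obtain ⟨u, hu⟩ := hnd
  have hother : ∀ w, w ≠ v → ¬ Hears G f u w := by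
    intro w hw hh
    apply hu w
    unfold Hears at hh ⊢
    rw [hlow, if_neg hw]
    exact hh
  refine ⟨u, ?_, hother⟩
  obtain ⟨w, hw⟩ := h2 u
  have hwv : w = v := by
    by_contra h
    exact hother w h hw
  subst hwv
  have h4 := hu w
  unfold Hears at h4 hw
  rw [hlow, if_pos rfl] at h4
  omega

/-- the search: `row v` lists the (ball, sphere) masks of radius `1, 2, ..., e(v)` -/
def dfs {ι : Type*} (row : ι → List (ℕ × ℕ)) (full bound : ℕ) : List ι → ℕ → ℕ → ℕ → List ℕ → Bool
  | [], h1, _, w, _ => !(full ||| h1 == h1) || Nat.ble w bound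
  | v :: vs, h1, h2, w, Ss =>
    dfs row full bound vs h1 h2 w Ss &&
      (row v).zipIdx.all fun p =>
        ((p.1.2 :: Ss).any fun S => (S ||| (h2 ||| (h1 &&& p.1.1))) == (h2 ||| (h1 &&& p.1.1))) ||
          dfs row full bound vs (h1 ||| p.1.1) (h2 ||| (h1 &&& p.1.1)) (w + p.2 + 1) (p.1.2 :: Ss)

theorem dfs_sound {n : ℕ} (D : Fin n → Fin n → ℕ) (row : Fin n → List (ℕ × ℕ)) (bound : ℕ)
    (hball : ∀ (v : Fin n) (a : ℕ) (p : ℕ × ℕ), (row v)[a]? = some p → ∀ u : Fin n,
      (p.1.testBit u = true ↔ D u v ≤ a + 1) ∧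
      (p.2.testBit u = true ↔ D u v = a + 1 ∨ (a = 0 ∧ D u v = 0)))
    (f : Fin n → ℕ) (hf : ∀ v, f v ≤ (row v).length)
    (hdom : ∀ u, ∃ v, 1 ≤ f v ∧ D u v ≤ f v)
    (hirr : ∀ v, 1 ≤ f v → ∃ u, (D u v = f v ∨ (f v = 1 ∧ D u v = 0)) ∧
      ∀ w, w ≠ v → ¬ (1 ≤ f w ∧ D u w ≤ f w)) :
    ∀ (vs : List (Fin n)) (dn : Finset (Fin n)) (h1 h2 w : ℕ) (Ss : List ℕ), vs.Nodup →
      (∀ v, v ∈ vs ↔ v ∉ dn) →
      (∀ u : Fin n, h1.testBit u = true ↔ ∃ v ∈ dn, 1 ≤ f v ∧ D u v ≤ f v) →
      (∀ u : Fin n, h2.testBit u = true → ∃ v ∈ dn, ∃ v' ∈ dn, v ≠ v' ∧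
        (1 ≤ f v ∧ D u v ≤ f v) ∧ (1 ≤ f v' ∧ D u v' ≤ f v')) →
      (∀ S ∈ Ss, ∃ v ∈ dn, 1 ≤ f v ∧
        ∀ u : Fin n, S.testBit u = true ↔ D u v = f v ∨ (f v = 1 ∧ D u v = 0)) →
      dfs row (2 ^ n - 1) bound vs h1 h2 w Ss = true →
      w + (vs.map f).sum ≤ bound := by
  intro vs
  induction vs with
  | nil =>
    intro dn h1 h2 w Ss _ hcov i1 i2 i3 hd
    have hall : ∀ v, v ∈ dn := by
      intro v
      by_contra h
      exact (List.not_mem_nil) ((hcov v).2 h)
    have hfull : ((2 ^ n - 1) ||| h1 == h1) = true := by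
      rw [beq_iff_eq]
      apply Nat.eq_of_testBit_eq
      intro i
      rw [Nat.testBit_or, Nat.testBit_two_pow_sub_one]
      by_cases hi : i < n
      · obtain ⟨v, hv⟩ := hdom ⟨i, hi⟩
        have := (i1 ⟨i, hi⟩).2 ⟨v, hall v, hv⟩
        simp at this
        simp [this]
      · simp [hi]
    unfold dfs at hd
    rw [hfull] at hd
    simp at hd
    simpa using hd
  | cons v vs ih =>
    intro dn h1 h2 w Ss hnd hcov i1 i2 i3 hd
    rw [List.nodup_cons] at hnd
    unfold dfs at hd
    rw [Bool.and_eq_true] at hd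
    obtain ⟨hd1, hd2⟩ := hd
    have hvdn : v ∉ dn := (hcov v).1 (List.mem_cons_self)
    have hcov' : ∀ x, x ∈ vs ↔ x ∉ insert v dn := by
      intro x
      have := hcov x
      rw [List.mem_cons] at this
      rw [Finset.mem_insert]
      constructor
      · intro hx h
        rcases h with h | h
        · subst h; exact hnd.1 hx
        · exact (this.1 (Or.inr hx)) h
      · intro h
        push Not at h
        rcases this.2 h.2 with h' | h'
        · exact absurd h' h.1
        · exact h'
    rw [List.map_cons, List.sum_cons]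
    by_cases hv0 : f v = 0
    · rw [hv0, Nat.zero_add]
      refine ih (insert v dn) h1 h2 w Ss hnd.2 hcov' ?_ ?_ ?_ hd1
      · intro u
        rw [i1 u]
        constructor
        · rintro ⟨x, hx, hh⟩; exact ⟨x, Finset.mem_insert_of_mem hx, hh⟩
        · rintro ⟨x, hx, hh⟩
          rw [Finset.mem_insert] at hx
          rcases hx with hx | hx
          · subst hx; omega
          · exact ⟨x, hx, hh⟩
      · intro u hu
        obtain ⟨x, hx, y, hy, hh⟩ := i2 u hu
        exact ⟨x, Finset.mem_insert_of_mem hx, y, Finset.mem_insert_of_mem hy, hh⟩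
      · intro S hS
        obtain ⟨x, hx, hh⟩ := i3 S hS
        exact ⟨x, Finset.mem_insert_of_mem hx, hh⟩
    · obtain ⟨a, ha⟩ : ∃ a, f v = a + 1 := ⟨f v - 1, by omega⟩
      have hlen : a < (row v).length := by have := hf v; omega
      have hget : (row v)[a]? = some ((row v)[a]) := List.getElem?_eq_getElem hlen
      set p := (row v)[a] with hp
      have hb := hball v a p hget
      rw [List.all_eq_true] at hd2
      have hmem : (p, a) ∈ (row v).zipIdx := by
        rw [List.mem_zipIdx_iff_getElem?]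
        exact hget
      have hd3 := hd2 _ hmem
      have j1 : ∀ u : Fin n, (h1 ||| p.1).testBit u = true ↔
          ∃ x ∈ insert v dn, 1 ≤ f x ∧ D u x ≤ f x := by
        intro u
        rw [Nat.testBit_or, Bool.or_eq_true, i1 u, (hb u).1]
        constructor
        · rintro (⟨x, hx, hh⟩ | h)
          · exact ⟨x, Finset.mem_insert_of_mem hx, hh⟩
          · exact ⟨v, Finset.mem_insert_self _ _, by omega, by omega⟩
        · rintro ⟨x, hx, hh⟩
          rw [Finset.mem_insert] at hx
          rcases hx with hx | hx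
          · subst hx; right; omega
          · left; exact ⟨x, hx, hh⟩
      have j2 : ∀ u : Fin n, (h2 ||| (h1 &&& p.1)).testBit u = true →
          ∃ x ∈ insert v dn, ∃ y ∈ insert v dn, x ≠ y ∧
            (1 ≤ f x ∧ D u x ≤ f x) ∧ (1 ≤ f y ∧ D u y ≤ f y) := by
        intro u hu
        rw [Nat.testBit_or, Bool.or_eq_true, Nat.testBit_and, Bool.and_eq_true, i1 u,
          (hb u).1] at hu
        rcases hu with hu | ⟨⟨x, hx, hh⟩, h⟩
        · obtain ⟨x, hx, y, hy, hh⟩ := i2 u hu
          exact ⟨x, Finset.mem_insert_of_mem hx, y, Finset.mem_insert_of_mem hy, hh⟩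
        · refine ⟨x, Finset.mem_insert_of_mem hx, v, Finset.mem_insert_self _ _, ?_, hh, ?_⟩
          · rintro rfl; exact hvdn hx
          · omega
      have j3 : ∀ S ∈ p.2 :: Ss, ∃ x ∈ insert v dn, 1 ≤ f x ∧
          ∀ u : Fin n, S.testBit u = true ↔ D u x = f x ∨ (f x = 1 ∧ D u x = 0) := by
        intro S hS
        rw [List.mem_cons] at hS
        rcases hS with hS | hS
        · subst hS
          refine ⟨v, Finset.mem_insert_self _ _, by omega, ?_⟩
          intro u
          rw [(hb u).2, ha]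
          constructor
          · rintro (h | h)
            · left; exact h
            · right; omega
          · rintro (h | h)
            · left; exact h
            · right; omega
        · obtain ⟨x, hx, hh⟩ := i3 S hS
          exact ⟨x, Finset.mem_insert_of_mem hx, hh⟩
      rw [Bool.or_eq_true] at hd3
      rcases hd3 with hd3 | hd3
      · exfalso
        rw [List.any_eq_true] at hd3
        obtain ⟨S, hS, hSe⟩ := hd3
        rw [beq_iff_eq] at hSe
        obtain ⟨x, hx, hx1, hx2⟩ := j3 S hS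
        obtain ⟨u, hu1, hu2⟩ := hirr x hx1
        have hbit := (hx2 u).2 hu1
        have hbit2 : (h2 ||| (h1 &&& p.1)).testBit u = true := by
          rw [← hSe, Nat.testBit_or, hbit]
          simp
        obtain ⟨y, hy, z, hz, hyz, hh1, hh2⟩ := j2 u hbit2
        by_cases hyx : y = x
        · subst hyx
          exact hu2 z (Ne.symm hyz) hh2
        · exact hu2 y hyx hh1
      · have := ih (insert v dn) _ _ _ _ hnd.2 hcov' j1 j2 j3 hd3
        simp only at this
        omega

/-- the bound for a distance table -/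
theorem sum_le_of_dfs {n : ℕ} (D : Fin n → Fin n → ℕ) (row : Fin n → List (ℕ × ℕ)) (bound : ℕ)
    (hball : ∀ (v : Fin n) (a : ℕ) (p : ℕ × ℕ), (row v)[a]? = some p → ∀ u : Fin n,
      (p.1.testBit u = true ↔ D u v ≤ a + 1) ∧
      (p.2.testBit u = true ↔ D u v = a + 1 ∨ (a = 0 ∧ D u v = 0)))
    (hdfs : dfs row (2 ^ n - 1) bound (List.finRange n) 0 0 0 [] = true)
    (f : Fin n → ℕ) (hf : ∀ v, f v ≤ (row v).length)
    (hdom : ∀ u, ∃ v, 1 ≤ f v ∧ D u v ≤ f v)
    (hirr : ∀ v, 1 ≤ f v → ∃ u, (D u v = f v ∨ (f v = 1 ∧ D u v = 0)) ∧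
      ∀ w, w ≠ v → ¬ (1 ≤ f w ∧ D u w ≤ f w)) :
    ∑ v, f v ≤ bound := by
  have := dfs_sound D row bound hball f hf hdom hirr (List.finRange n) ∅ 0 0 0 []
    (List.nodup_finRange n) (by intro v; simp) (by intro u; simp) (by intro u hu; simp at hu)
    (by intro S hS; simp at hS) hdfs
  rw [← List.sum_ofFn, List.ofFn_eq_map]
  omega

end Pool.Agent.Q124.BC
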